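import Pool.Agent.H87.QP.Targets
import Pool.Agent.H14.ES.DVO

/-! (DVS) tests for the primes of one octave, words of any length. -/

set_option autoImplicit false

open Finset Pool.Agent.H18.MR Pool.Agent.H93.DE Pool.Agent.H6.N4D Pool.Agent.H93
  Pool.Agent.H93.ES Pool.Agent.H28.NW Pool.Agent.H87.QP

namespace Pool.Agent.H14.QP

open Pool.Agent.H14.ES

theorem pf_DVS (hU : T_UNI) (hV : T_DVF) : T_DVS := by
  intro N R m L _ x d t hN
  have hM0 : primorial (2 ^ m) ≠ 0 := (primorial_pos _).ne'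
  have hP0 : pr m ≠ 0 := (Pool.Agent.H81.DE.pr_pos m).ne'
  have : NeZero (primorial (2 ^ m)) := ⟨hM0⟩
  have : NeZero (pr m) := ⟨hP0⟩
  have hPN : pr m ∣ N := by
    rw [Pool.Agent.H81.DE.prim_succ] at hN
    exact (Dvd.intro_left _ rfl).trans hN
  have hinfo : info (tup x d) L (primorial (2 ^ m)) (pr m) =
      mi (unif N) (fun n => (wd (tup x d) L n, rs N (primorial (2 ^ m)) n))
        (fun n => rs N (pr m) n) := by
    unfold info
    rw [dif_neg hM0, dif_neg hP0]
  set W : ZMod N → (Fin L → Fin R → Bool) × ZMod (primorial (2 ^ m)) :=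
    fun n => (wd (tup x d) L n, rs N (primorial (2 ^ m)) n) with hW
  set Y : ZMod N → ZMod (pr m) := fun n => rs N (pr m) n with hY
  set f : (Fin L → Fin R → Bool) × ZMod (primorial (2 ^ m)) → ZMod (pr m) → ℝ :=
    fun z y => ∑ q ∈ oct m, t q z.1 (y.val % q) with hf
  have h1 := hV (ZMod N) _ _ (unif N) W Y f
  rw [hinfo]
  have h3 : ∑ a, ∑ b, law (unif N) (fun ω => (W ω, Y ω)) (a, b) * f a b =
      avZ (fun n => ∑ q ∈ oct m, t q (wd (tup x d) L n) (n.val % q)) := by
    rw [← Fintype.sum_prod_type'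
      (f := fun a b => law (unif N) (fun ω => (W ω, Y ω)) (a, b) * f a b)]
    have h4 := sum_law N (fun ω => (W ω, Y ω)) (fun z => f z.1 z.2)
    refine h4.trans ?_
    congr 1
    funext n
    refine Finset.sum_congr rfl fun q hq => ?_
    have hqd : q ∣ pr m := Finset.dvd_prod_of_mem (fun p => p) hq
    have h5 : (Y n).val % q = n.val % q := by
      rw [hY]
      unfold rs
      rw [ZMod.val_natCast, Nat.mod_mod_of_dvd _ hqd]
    simp only [hW]
    rw [h5]
  have h6 : ∑ a, law (unif N) W a *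
      Real.log (∑ b, law (unif N) Y b * Real.exp (f a b)) =
      avZ (fun n => ∑ q ∈ oct m, Real.log
        ((∑ r ∈ range q, Real.exp (t q (wd (tup x d) L n) r)) / q)) := by
    refine (sum_law N W
      (fun a => Real.log (∑ b, law (unif N) Y b * Real.exp (f a b)))).trans ?_
    congr 1
    funext n
    have h7 : ∀ b, law (unif N) Y b = 1 / (pr m : ℝ) := fun b => (hU.2 N (pr m) hPN).1 b
    simp only [h7]
    exact log_part m (fun q r => t q (wd (tup x d) L n) r)
  rw [h3, h6] at h1
  exact h1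

end Pool.Agent.H14.QP
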